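import Pool.Agent.H60QP.Tower
import Pool.Agent.Helper292.ForceCH

/-!
# A non-selective q-point which is a Fubini iterate of p-points

Idea of the proof. Under the continuum hypothesis we construct selective ultrafilters `V n` such
that for every finite-to-one function `F` on `ℕ × ℕ` there are sets `T n` in `V n` such that `F` is
injective on the union of the sets `{n} × T n`. The Fubini limit of the `V n` along any p-point is
then a q-point, and it is not selective, since the first projection is neither constant nor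
injective on a set of this limit.
-/

set_option autoImplicit false

open Set Filter

namespace Pool.Agent.Results.MP_21276c_lc.NonSelectiveQPoint

/-- `U` is nonprincipal. -/
def Nonprincipal (U : Ultrafilter ℕ) : Prop := ∀ n : ℕ, ({n} : Set ℕ) ∉ U

/-- `U` is a p-point: every function is constant or finite-to-one on some set of `U`. -/
def IsPPoint (U : Ultrafilter ℕ) : Prop :=
  Nonprincipal U ∧ ∀ f : ℕ → ℕ, ∃ X ∈ U, (∃ c, ∀ x ∈ X, f x = c) ∨ ∀ m, {x ∈ X | f x = m}.Finite

/-- `U` is a q-point: every finite-to-one function is injective on some set of `U`. -/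
def IsQPoint (U : Ultrafilter ℕ) : Prop :=
  Nonprincipal U ∧ ∀ f : ℕ → ℕ, (∀ m, {x | f x = m}.Finite) → ∃ X ∈ U, InjOn f X

/-- `U` is selective: every function is constant or injective on some set of `U`. -/
def IsSelective (U : Ultrafilter ℕ) : Prop :=
  Nonprincipal U ∧ ∀ f : ℕ → ℕ, ∃ X ∈ U, (∃ c, ∀ x ∈ X, f x = c) ∨ InjOn f X

/-- `V` is Tukey reducible to `U`: there is a monotone map from `U` to `V` with cofinal image. -/
def TukeyLE (V U : Ultrafilter ℕ) : Prop :=
  ∃ g : Set ℕ → Set ℕ, (∀ A ∈ U, g A ∈ V) ∧ (∀ A ∈ U, ∀ B ∈ U, A ⊆ B → g A ⊆ g B) ∧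
    ∀ B ∈ V, ∃ A ∈ U, g A ⊆ B

/-- The Fubini limit of the ultrafilters `V n` along `W`: a set `A` belongs to it if and only if
`{n | {x | (n, x) ∈ A} ∈ V n} ∈ W`. -/
def fubiniLim (W : Ultrafilter ℕ) (V : ℕ → Ultrafilter ℕ) : Ultrafilter (ℕ × ℕ) :=
  W.bind fun n => (V n).map (Prod.mk n)

/-- The finite Fubini iterates of p-points of depth at most `k`, transferred to `ℕ` by
bijections: the iterates of depth `1` are the p-points; those of depth `≤ k + 1` are those of depth
`≤ k` and the Fubini limits, along a p-point, of iterates of depth `≤ k`. -/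
inductive FubiniIterate : ℕ → Ultrafilter ℕ → Prop
  | ppoint (U : Ultrafilter ℕ) : IsPPoint U → FubiniIterate 1 U
  | mono (k : ℕ) (U : Ultrafilter ℕ) : FubiniIterate k U → FubiniIterate (k + 1) U
  | lim (k : ℕ) (W : Ultrafilter ℕ) (V : ℕ → Ultrafilter ℕ) (e : ℕ × ℕ ≃ ℕ) : IsPPoint W →
      (∀ n, FubiniIterate k (V n)) → FubiniIterate (k + 1) ((fubiniLim W V).map e)

theorem mem_fubiniLim (W : Ultrafilter ℕ) (V : ℕ → Ultrafilter ℕ) (A : Set (ℕ × ℕ)) :
    A ∈ fubiniLim W V ↔ {n | {x | (n, x) ∈ A} ∈ V n} ∈ W := Iff.rfl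

/-- (A) Some notion of forcing forces that `ω₁` is preserved and that the continuum hypothesis
holds. (B) The continuum hypothesis implies that there are a finite Fubini iterate `U` of p-points
and a q-point `V` which is Tukey reducible to `U` and not selective. -/
theorem result :
    (∃ (P : Type) (_ : Preorder P), Nonempty P ∧ ∀ p : P,
      p ∈ Pool.Agent.Helper292.ForceCH.OmegaOnePreserved P ∧
      p ∈ Pool.Agent.Helper292.ForceCH.CHHolds P) ∧
    (Cardinal.continuum.{0} = Cardinal.aleph 1 →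
      ∃ U V : Ultrafilter ℕ, FubiniIterate 2 U ∧ IsQPoint V ∧ TukeyLE V U ∧ ¬ IsSelective V) := by
  refine ⟨?_, fun hCH => ?_⟩
  · obtain ⟨P, hP, hne, h⟩ := Pool.Agent.Helper292.ForceCH.exists_forcing
    exact ⟨P, hP, hne, fun p => ⟨(h p).1, (h p).2.2⟩⟩
  obtain ⟨V, hV1, hV2, hV3⟩ := Pool.Agent.H60QP.exists_ultrafilters hCH.symm
  have hP : ∀ n, IsPPoint (V n) := by
    intro n
    refine ⟨hV1 n, fun f => ?_⟩
    by_cases h : ∃ c, {x | f x = c} ∈ V n
    · obtain ⟨c, hc⟩ := h
      exact ⟨_, hc, Or.inl ⟨c, fun x hx => hx⟩⟩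
    · push Not at h
      obtain ⟨B, hB, hB'⟩ := hV2 n (fun c => {x | f x = c}ᶜ)
        (fun c => Ultrafilter.compl_mem_iff_notMem.2 (h c))
      refine ⟨B, hB, Or.inr fun m => (hB' m).subset ?_⟩
      rintro x ⟨hx, hxm⟩
      exact ⟨hx, fun h' => h' hxm⟩
  let e : ℕ × ℕ ≃ ℕ := Nat.pairEquiv
  let U : Ultrafilter ℕ := (fubiniLim (V 0) V).map e
  have hU : ∀ X : Set ℕ, X ∈ U ↔ {n | {x | e (n, x) ∈ X} ∈ V n} ∈ V 0 := fun X => Iff.rfl
  have hnp : Nonprincipal U := by
    intro m hm
    rw [hU] at hm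
    obtain ⟨n, hn⟩ := (V 0).nonempty_of_mem hm
    have h1 : {x | e (n, x) ∈ ({m} : Set ℕ)} ⊆ {(e.symm m).2} := by
      intro x hx
      have hx' : e (n, x) = m := hx
      show x = (e.symm m).2
      rw [← hx', Equiv.symm_apply_apply]
    exact hV1 n _ (mem_of_superset hn h1)
  refine ⟨U, U, ?_, ⟨hnp, ?_⟩, ⟨id, fun A hA => hA, fun A _ B _ h => h, fun B hB =>
    ⟨B, hB, subset_rfl⟩⟩, ?_⟩
  · exact FubiniIterate.lim 1 (V 0) V e (hP 0) fun n => FubiniIterate.ppoint _ (hP n)
  · intro f hf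
    obtain ⟨T, hT, hinj⟩ := hV3 (fun p => f (e p)) (by
      intro m
      exact (hf m).preimage e.injective.injOn)
    refine ⟨e '' {p | p.2 ∈ T p.1}, ?_, ?_⟩
    · rw [hU]
      refine univ_mem' fun n => ?_
      refine mem_of_superset (hT n) fun x hx => ?_
      exact ⟨(n, x), hx, rfl⟩
    · rintro _ ⟨p, hp, rfl⟩ _ ⟨q, hq, rfl⟩ h
      rw [hinj hp hq h]
  · rintro ⟨-, h⟩
    obtain ⟨X, hX, ⟨c, hc⟩ | hinj⟩ := h fun a => (e.symm a).1
    · rw [hU] at hX
      apply hV1 0 c
      refine mem_of_superset hX ?_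
      intro n hn
      obtain ⟨x, hx⟩ := (V n).nonempty_of_mem hn
      have := hc _ hx
      simp only [Equiv.symm_apply_apply] at this
      exact this
    · rw [hU] at hX
      obtain ⟨n, hn⟩ := (V 0).nonempty_of_mem hX
      obtain ⟨x, hx⟩ := (V n).nonempty_of_mem hn
      apply hV1 n x
      refine mem_of_superset hn ?_
      intro y hy
      have h1 : e (n, y) = e (n, x) := hinj hy hx (by simp)
      have h2 := e.injective h1
      rw [Prod.mk.injEq] at h2
      exact h2.2

end Pool.Agent.Results.MP_21276c_lc.NonSelectiveQPoint
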